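import Pool.Agent.W429.TCI.Fin

set_option autoImplicit false

/-! Trivial characteristic ideals of free alternative algebras which are fully invariant. -/

namespace Pool.Agent.Y850.TC

open Pool.Agent.Helper805.Nuc.Tens Pool.Agent.Helper805.Nuc.Free Pool.Agent.Helper805.Nuc.NFun
  Pool.Agent.Helper805.Nuc.Alt Pool.Agent.W429.TCI Pool.Agent.W918.TCI Pool.Agent.W978.TCI

section general

variable {F : Type} [Field F] {A : Type} [NonUnitalNonAssocRing A] [Module F A]
  [IsScalarTower F A A] [SMulCommClass F A A]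

/-- stable under all endomorphisms -/
def FullInv (I : Submodule F A) : Prop := ∀ f : A →ₙₐ[F] A, ∀ a ∈ I, f a ∈ I

theorem fullInv_pr {I J : Submodule F A} (hI : FullInv I) (hJ : FullInv J) :
    FullInv (pr F I J) := by
  intro f z hz
  have h : pr F I J ≤ (pr F I J).comap (f : A →ₗ[F] A) := by
    refine pr_le fun i hi j hj => ⟨?_, ?_⟩
    · show f (i * j) ∈ pr F I J
      rw [map_mul]
      exact pr_left (hI f i hi) (hJ f j hj)
    · show f (j * i) ∈ pr F I J
      rw [map_mul]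
      exact pr_right (hI f i hi) (hJ f j hj)
  exact h hz

theorem fullInv_gen {S : Set A} (h : ∀ f : A →ₙₐ[F] A, ∀ s ∈ S, f s ∈ S) :
    FullInv (idealGen F A S) := by
  intro f z hz
  have h1 : idealGen F A S ≤ (idealGen F A S).comap (f : A →ₗ[F] A) := by
    refine gen_le ?_ ?_
    · intro a x hx
      have hx' : f x ∈ idealGen F A S := hx
      constructor
      · show f (a * x) ∈ idealGen F A S
        rw [map_mul]
        exact (gen_ideal S (f a) (f x) hx').1
      · show f (x * a) ∈ idealGen F A S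
        rw [map_mul]
        exact (gen_ideal S (f a) (f x) hx').2
    · intro s hs
      exact gen_mem (h f s hs)
  exact h1 hz

theorem fullInv_D : FullInv (Dideal F A) := by
  refine fullInv_gen fun f s hs => ?_
  obtain ⟨a, b, c, rfl⟩ := hs
  refine ⟨f a, f b, f c, ?_⟩
  rw [map_sub, map_mul, map_mul, map_mul, map_mul]

theorem fullInv_PI : FullInv (PI F A) := by
  refine fullInv_gen fun f s hs => ?_
  obtain ⟨x, y, a, rfl⟩ := hs
  exact ⟨fun i => f (x i), f y, f a, by rw [Pool.Agent.W978.TCI.map_br, map_nstar]⟩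

/-- the chain of ideals -/
theorem l3' (hA : IsAlt A)
    (h1 : pr F (pr F (ZN F A) (Dideal F A)) (Dideal F A) = ⊥)
    (h2 : pr F (pr F (PI F A) (Dideal F A)) (Dideal F A) ≤ ZN F A)
    (h3 : ¬ PI F A ≤ nucleus F A) :
    ∃ I : Submodule F A, IsIdeal F A I ∧ (∀ u ∈ I, ∀ v ∈ I, u * v = 0) ∧ Chr F I ∧ FullInv I ∧
      I ≤ pr F (Dideal F A) (Dideal F A) ∧ ¬ I ≤ nucleus F A := by
  have hD : IsIdeal F A (Dideal F A) := gen_ideal _
  have hP : IsIdeal F A (PI F A) := gen_ideal _
  have hJ1 := pr_ideal hA hP hD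
  have hJ2 := pr_ideal hA hJ1 hD
  have l1 : pr F (PI F A) (Dideal F A) ≤ PI F A := pr_le_left hP
  have l2 : pr F (pr F (PI F A) (Dideal F A)) (Dideal F A) ≤ pr F (PI F A) (Dideal F A) :=
    pr_le_left hJ1
  have l0 : PI F A ≤ pr F (Dideal F A) (Dideal F A) := PI_le hA
  have c1 := Chr_pr (Chr_PI (F := F) (A := A)) (Chr_D (F := F) (A := A))
  have c2 := Chr_pr c1 (Chr_D (F := F) (A := A))
  have e1 := fullInv_pr (fullInv_PI (F := F) (A := A)) (fullInv_D (F := F) (A := A))
  have e2 := fullInv_pr e1 (fullInv_D (F := F) (A := A))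
  have sq : ∀ J : Submodule F A, J ≤ PI F A → pr F (pr F J (Dideal F A)) (Dideal F A) = ⊥ →
      ∀ u ∈ J, ∀ v ∈ J, u * v = 0 := by
    intro J hJ h u hu v hv
    have h4 : u * v ∈ pr F J (pr F (Dideal F A) (Dideal F A)) := pr_left hu (l0 (hJ hv))
    have h5 := pr_assoc hA h4
    rw [h] at h5
    exact (Submodule.mem_bot F).1 h5
  by_cases n2 : pr F (pr F (PI F A) (Dideal F A)) (Dideal F A) ≤ nucleus F A
  · have z2 := pr_nuc hA hJ2 n2
    by_cases n1 : pr F (PI F A) (Dideal F A) ≤ nucleus F A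
    · have z1 := pr_nuc hA hJ1 n1
      exact ⟨PI F A, hP, sq _ le_rfl z1, Chr_PI, fullInv_PI, l0, h3⟩
    · exact ⟨pr F (PI F A) (Dideal F A), hJ1, sq _ l1 z2, c1, e1, l1.trans l0, n1⟩
  · refine ⟨pr F (pr F (PI F A) (Dideal F A)) (Dideal F A), hJ2, sq _ (l2.trans l1) ?_, c2, e2,
      (l2.trans l1).trans l0, n2⟩
    rw [eq_bot_iff, ← h1]
    exact pr_mono (pr_mono h2 le_rfl) le_rfl

end general

variable {F : Type} [Field F] {X : Type}

/-- the ideal `PI` of the free alternative algebra with nine generators is not nuclear -/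
theorem PI_not_nuc (h2 : (2 : F) ≠ 0) (h3 : (3 : F) ≠ 0) (ι : Fin 9 ↪ X) :
    ¬ PI F (FreeAlt F X) ≤ nucleus F (FreeAlt F X) := by
  classical
  intro hle
  obtain ⟨W, _, _, _, _, hWalt, x, y, a, u, v, hne⟩ := Pool.Agent.W376.TCI.WitZ.w F h2 h3
  let w : Fin 9 → W := ![x 0, x 1, x 2, x 3, x 4, y, a, u, v]
  let f : X → W := fun p => if h : ∃ i, ι i = p then w h.choose else 0
  have hf : ∀ i, f (ι i) = w i := by
    intro i
    have h : ∃ j, ι j = ι i := ⟨i, rfl⟩
    show (if h : ∃ j, ι j = ι i then w h.choose else 0) = w i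
    rw [dif_pos h]
    exact congrArg w (ι.injective h.choose_spec)
  let g : FreeAlt F X →ₙₐ[F] W := FreeAlt.lift (Φ := F) hWalt f
  have e : ∀ i, g (FreeAlt.gen (ι i)) = w i := fun i => (FreeAlt.lift_gen hWalt f _).trans (hf i)
  have hz : br (nstar (fun i : Fin 5 => (FreeAlt.gen (ι (Fin.castLE (by norm_num) i)) :
      FreeAlt F X)) (FreeAlt.gen (ι 5))) (FreeAlt.gen (ι 6)) ∈ PI F (FreeAlt F X) := by
    unfold PI
    exact gen_mem ⟨_, _, _, rfl⟩
  have h1 := (hle hz (FreeAlt.gen (ι 7)) (FreeAlt.gen (ι 8))).1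
  have h4 := congrArg g h1
  rw [Pool.Agent.W978.TCI.map_as, Pool.Agent.W978.TCI.map_br, map_nstar, map_zero] at h4
  apply hne
  simp only [e] at h4
  have e5 : (fun i : Fin 5 => w (Fin.castLE (by norm_num) i)) = x := by
    funext i
    fin_cases i <;> rfl
  rw [e5] at h4
  exact h4

/-- a trivial, characteristic and fully invariant ideal outside of the nucleus -/
theorem exists_full (h2 : (2 : F) ≠ 0) (h3 : (3 : F) ≠ 0) (ι : Fin 9 ↪ X) :
    ∃ I : Submodule F (FreeAlt F X), IsIdeal F (FreeAlt F X) I ∧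
      (∀ u ∈ I, ∀ v ∈ I, u * v = 0) ∧ Chr F I ∧ FullInv I ∧
      I ≤ pr F (Dideal F (FreeAlt F X)) (Dideal F (FreeAlt F X)) ∧
      ¬ I ≤ nucleus F (FreeAlt F X) := by
  have halt : IsAlt (FreeAlt F X) := FreeAlt.isAlt
  have htor : ∀ b : FreeAlt F X, b + b = 0 → b = 0 := by
    intro b hb
    have h : (2 : F)⁻¹ • ((2 : F) • b) = b := by rw [smul_smul, inv_mul_cancel₀ h2, one_smul]
    rw [← h, two_smul, hb, smul_zero]
  have hL1 : S_L1 := Pool.Agent.W366.TCI.l1
  have hL2 : S_L2 := Pool.Agent.W356.TCI.l2 Pool.Agent.W366.TCI.l1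
  have hC : S_C := Pool.Agent.W45.TCIC5.c5 Pool.Agent.W377.TCI.c1 Pool.Agent.W465.TCI.c3
    Pool.Agent.W563.TCI.C4.c4 (C.cert Pool.Agent.W140.TCI.c2)
  exact l3' halt (hL1 F _ halt htor) (hL2 F _ h2 halt (hC F _ h2 h3 halt))
    (PI_not_nuc h2 h3 ι)

theorem exists_emb (X : Type) [Infinite X] : Nonempty (X × X ↪ X) := by
  rw [← Cardinal.le_def, Cardinal.mk_prod, Cardinal.lift_id]
  exact (Cardinal.mul_eq_self (Cardinal.aleph0_le_mk X)).le

/-- a fully invariant submodule which is not inside the nucleus has infinite rank modulo the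
nucleus -/
theorem rank_of_full [Infinite X] {I : Submodule F (FreeAlt F X)} (hI : FullInv I)
    (hN : ¬ I ≤ nucleus F (FreeAlt F X)) :
    ∃ z : X → FreeAlt F X, (∀ x, z x ∈ I) ∧
      LinearIndependent F (fun x => (nucleus F (FreeAlt F X)).mkQ (z x)) := by
  classical
  have halt : IsAlt (FreeAlt F X) := FreeAlt.isAlt
  obtain ⟨k, hk, hkN⟩ := Set.not_subset.1 hN
  have hkN' : ¬ IsNuc k := fun h => hkN ((mem_nucleus halt).2 h)
  unfold IsNuc at hkN'
  push Not at hkN'
  obtain ⟨a, b, hab⟩ := hkN'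
  obtain ⟨j⟩ := exists_emb X
  let R : X → (FreeAlt F X →ₙₐ[F] FreeAlt F X) := fun i =>
    FreeAlt.lift halt (fun x => FreeAlt.gen (j (i, x)))
  let Lf : X → X → FreeAlt F X := fun i y =>
    if h : ∃ x, j (i, x) = y then FreeAlt.gen h.choose else 0
  let L : X → (FreeAlt F X →ₙₐ[F] FreeAlt F X) := fun i => FreeAlt.lift halt (Lf i)
  have hRg : ∀ i x, R i (FreeAlt.gen x) = FreeAlt.gen (j (i, x)) := fun i x =>
    FreeAlt.lift_gen halt _ x
  have hLg : ∀ i y, L i (FreeAlt.gen y) = Lf i y := fun i y => FreeAlt.lift_gen halt _ y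
  have hLf : ∀ i x, Lf i (j (i, x)) = FreeAlt.gen x := by
    intro i x
    have h : ∃ x', j (i, x') = j (i, x) := ⟨x, rfl⟩
    show (if h : ∃ x', j (i, x') = j (i, x) then FreeAlt.gen h.choose else 0) = FreeAlt.gen x
    rw [dif_pos h]
    have h2 := j.injective h.choose_spec
    exact congrArg FreeAlt.gen (Prod.mk.inj h2).2
  have hLf0 : ∀ i i' x, i' ≠ i → Lf i (j (i', x)) = 0 := by
    intro i i' x hi
    refine dif_neg ?_
    rintro ⟨x', hx'⟩
    exact hi (Prod.mk.inj (j.injective hx')).1.symm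
  have hLR : ∀ i t, L i (R i t) = t := by
    intro i t
    have h : (L i).comp (R i) = NonUnitalAlgHom.id F (FreeAlt F X) := by
      apply FreeAlt.hom_ext
      intro x
      show L i (R i (FreeAlt.gen x)) = FreeAlt.gen x
      rw [hRg, hLg, hLf]
    exact DFunLike.congr_fun h t
  have hLR0 : ∀ i i' t, i' ≠ i → L i (R i' t) = 0 := by
    intro i i' t hi
    have h : (L i).comp (R i') = 0 := by
      apply FreeAlt.hom_ext
      intro x
      show L i (R i' (FreeAlt.gen x)) = 0
      rw [hRg, hLg, hLf0 i i' x hi]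
    exact DFunLike.congr_fun h t
  refine ⟨fun i => R i k, fun i => hI _ k hk, ?_⟩
  rw [linearIndependent_iff]
  intro l hl
  have hmem : (l.sum fun i r => r • R i k) ∈ nucleus F (FreeAlt F X) := by
    rw [← Submodule.ker_mkQ (nucleus F (FreeAlt F X)), LinearMap.mem_ker, Finsupp.sum, map_sum]
    rw [Finsupp.linearCombination_apply, Finsupp.sum] at hl
    rw [← hl]
    exact Finset.sum_congr rfl fun i _ => map_smul _ _ _
  ext i
  have h1 := (hmem (R i a) (R i b)).1
  have h2 := congrArg (L i) h1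
  rw [Pool.Agent.W978.TCI.map_as, hLR, hLR, map_zero] at h2
  have h3 : L i (l.sum fun i r => r • R i k) = l i • k := by
    rw [Finsupp.sum, map_sum]
    rw [Finset.sum_eq_single i]
    · rw [map_smul, hLR]
    · intro i' _ hi'
      rw [map_smul, hLR0 i i' k hi', smul_zero]
    · intro hi
      rw [Finsupp.notMem_support_iff.1 hi, zero_smul, map_zero]
  rw [h3] at h2
  have h4 : as (l i • k) a b = l i • as k a b := by
    unfold as
    simp only [smul_mul_assoc, smul_sub]
  rw [h4] at h2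
  exact (smul_eq_zero.mp h2).resolve_right hab

end Pool.Agent.Y850.TC
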